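import Pool.Agent.Helper7.BM.Goals2

/-!
Packet BM-DDV (project BM, MP_57df85_nt): divisibility of the determinant of a residue class.
-/

set_option autoImplicit false

namespace Pool.Agent.Helper69.BM

open Pool.Agent.Helper7.BM

/-- congruent matrices have congruent determinants -/
lemma det_congr {J : Type} [Fintype J] [DecidableEq J] (N : ℤ) (A B : Matrix J J ℤ)
    (h : ∀ i j, N ∣ A i j - B i j) : N ∣ A.det - B.det := by
  rw [← Ideal.mem_span_singleton, ← Ideal.Quotient.eq_zero_iff_mem, map_sub, sub_eq_zero,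
    RingHom.map_det, RingHom.map_det]
  congr 1
  ext i j
  simp only [RingHom.mapMatrix_apply, Matrix.map_apply]
  rw [← sub_eq_zero, ← map_sub, Ideal.Quotient.eq_zero_iff_mem, Ideal.mem_span_singleton]
  exact h i j

theorem ddv (h1 : StmtNWT) (h2 : StmtPDET) : StmtDDV := by
  intro f g l K1 K2 u1 u2 w hl hg hw
  set E : ℕ := K1 * K2 * (K1 * K2 - 1) / 2 with hE
  obtain ⟨ψ, hψ⟩ := h1 f g l E u1 u2 hl hg
  have h3 := h2 (Fin K1 × Fin K2)
    (fun ij => (Polynomial.C u1 + Polynomial.X) ^ (ij.1 : ℕ) * ψ ^ (ij.2 : ℕ))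
    (fun k => (w k).1 - u1) l (fun k => (hw k).1)
  have hcard : Fintype.card (Fin K1 × Fin K2) = K1 * K2 := by
    rw [Fintype.card_prod, Fintype.card_fin, Fintype.card_fin]
  rw [hcard, ← hE] at h3
  have h4 := det_congr ((l : ℤ) ^ E)
    (Matrix.of fun (k ij : Fin K1 × Fin K2) => (w k).1 ^ (ij.1 : ℕ) * (w k).2 ^ (ij.2 : ℕ))
    (Matrix.of fun k (ij : Fin K1 × Fin K2) =>
      ((Polynomial.C u1 + Polynomial.X) ^ (ij.1 : ℕ) * ψ ^ (ij.2 : ℕ)).eval ((w k).1 - u1))
    (fun k ij => by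
      simp only [Matrix.of_apply, Polynomial.eval_mul, Polynomial.eval_pow, Polynomial.eval_add,
        Polynomial.eval_C, Polynomial.eval_X]
      rw [add_sub_cancel, ← mul_sub]
      refine Dvd.dvd.mul_left ?_ _
      exact (hψ _ _ (hw k).1 (hw k).2.1 (hw k).2.2).trans (sub_dvd_pow_sub_pow _ _ _))
  exact (dvd_iff_dvd_of_dvd_sub h4).2 h3

end Pool.Agent.Helper69.BM
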